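import Pool.Agent.N77.GL.Gen

/-!
# Kernels of square zero
-/

set_option autoImplicit false

namespace Pool.Agent.N77.GL

open Pool.Agent.Y110.FJ

/-- extensions with abelian kernel -/
theorem ext_comm {C : ∀ (G : Type) [Group G], Prop} (hC : ClosedE C)
    (hsol : ∀ (S : Type) [Group S], Group.IsSolvable S → C S)
    {G Q : Type} [Group G] [Group Q] (φ : G →* Q) (hk : ∀ x y : G, φ x = 1 → φ y = 1 → x * y = y * x)
    (h : C Q) : C G := by
  have hker : ∀ x y : φ.ker, x * y = y * x := fun x y => Subtype.ext (hk x.1 y.1 x.2 y.2)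
  refine Pool.Agent.Y529.FJ.t_ext C hC G φ.ker (hsol _ (Group.isSolvable_of_comm hker)) ?_ ?_
  · exact hC.base.of_injective _ _ (QuotientGroup.kerLift φ) (QuotientGroup.kerLift_injective φ) h
  · intro g _
    apply hsol
    have hmem : ∀ x : ↥(φ.ker ⊔ Subgroup.zpowers g), φ x.1 ∈ Subgroup.zpowers (φ g) := by
      intro x
      have h1 : φ.ker ⊔ Subgroup.zpowers g ≤ (Subgroup.zpowers (φ g)).comap φ := by
        refine sup_le ?_ ?_
        · intro y hy
          rw [Subgroup.mem_comap, MonoidHom.mem_ker.1 hy]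
          exact Subgroup.one_mem _
        · rw [Subgroup.zpowers_le]
          exact Subgroup.mem_zpowers _
      exact h1 x.2
    let ψ : ↥(φ.ker ⊔ Subgroup.zpowers g) →* Subgroup.zpowers (φ g) :=
      (φ.comp (Subgroup.subtype _)).codRestrict _ hmem
    have : Group.IsSolvable φ.ker := Group.isSolvable_of_comm hker
    have : Group.IsSolvable (Subgroup.zpowers (φ g)) := Group.isSolvable_of_comm (by
      rintro ⟨_, ⟨i, rfl⟩⟩ ⟨_, ⟨j, rfl⟩⟩
      apply Subtype.ext
      show φ g ^ i * φ g ^ j = φ g ^ j * φ g ^ i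
      rw [← zpow_add, ← zpow_add, add_comm])
    refine Group.isSolvable_of_ker_le_range
      (Subgroup.inclusion (le_sup_left : φ.ker ≤ φ.ker ⊔ Subgroup.zpowers g)) ψ ?_
    intro x hx
    have hx1 : φ x.1 = 1 := congrArg Subtype.val (MonoidHom.mem_ker.1 hx)
    exact ⟨⟨x.1, hx1⟩, rfl⟩

/-- rings with a homomorphism whose kernel has square zero -/
theorem ext_sq {C : ∀ (G : Type) [Group G], Prop} (hC : ClosedE C)
    (hsol : ∀ (S : Type) [Group S], Group.IsSolvable S → C S)
    {S S' : Type} [Ring S] [Ring S'] (φ : S →+* S') (hk : ∀ x y, φ x = 0 → φ y = 0 → x * y = 0)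
    (h : C (G2 S')) : C (G2 S) := by
  refine ext_comm hC hsol (mG φ) ?_ h
  intro M N hM hN
  have h1 : ∀ (M : G2 S), mG φ M = 1 → ∀ i j, φ ((M.1 - 1) i j) = 0 := by
    intro M hM i j
    have h2 : (mG φ M).1 i j = (1 : Matrix (Fin 2) (Fin 2) S') i j := by rw [hM]; rfl
    rw [mG_apply] at h2
    rw [Matrix.sub_apply, map_sub, h2, Matrix.one_apply, Matrix.one_apply]
    split_ifs <;> simp
  have h3 : ∀ M N : G2 S, mG φ M = 1 → mG φ N = 1 → (M.1 - 1) * (N.1 - 1) = 0 := by
    intro M N hM hN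
    ext i j
    rw [Matrix.mul_apply, Matrix.zero_apply]
    exact Finset.sum_eq_zero fun k _ => hk _ _ (h1 M hM i k) (h1 N hN k j)
  apply Units.ext
  rw [Units.val_mul, Units.val_mul]
  have e1 : M.1 * N.1 = (M.1 - 1) * (N.1 - 1) + (M.1 + N.1 - 1) := by noncomm_ring
  have e2 : N.1 * M.1 = (N.1 - 1) * (M.1 - 1) + (M.1 + N.1 - 1) := by noncomm_ring
  rw [e1, e2, h3 M N hM hN, h3 N M hN hM]

/-- isomorphic rings -/
theorem of_ringEquiv {C : ∀ (G : Type) [Group G], Prop} (hC : ClosedE C)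
    {S S' : Type} [Ring S] [Ring S'] (φ : S →+* S') (hφ : Function.Injective φ)
    (h : C (G2 S')) : C (G2 S) :=
  hC.base.of_injective _ _ (mG φ) (mG_inj φ hφ) h

end Pool.Agent.N77.GL
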