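import Pool.Agent.Y417.FJ.Am

/-!
# Amalgams recognised by alternating products, and their embedding in `F(X) ⋊ P`
-/

set_option autoImplicit false

namespace Pool.Agent.N77.GL

open Pool.Agent.Y110.FJ
open Pool.Agent.Y417.FJ (Alt NF nf_mul_left nf_mul_right permAut_mk reduced_map nf_all)

section graph

variable {G : Type} [Group G]

theorem nf_sup (A B K : Subgroup G) (hA : K ≤ A) (hB : K ≤ B) (g : G) (hg : g ∈ A ⊔ B) :
    NF A B K g := by
  rw [Subgroup.sup_eq_closure] at hg
  induction hg using Subgroup.closure_induction_left with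
  | one => exact Or.inl A.one_mem
  | mul_left x hx y hy ih =>
    rcases hx with hx | hx
    · exact nf_mul_left A B K x y hx ih
    · exact nf_mul_right A B K hA hB x y hx ih
  | inv_mul_cancel x hx y hy ih =>
    rcases hx with hx | hx
    · exact nf_mul_left A B K _ y (A.inv_mem hx) ih
    · exact nf_mul_right A B K hA hB _ y (B.inv_mem hx) ih

/-- alternating products are mapped to alternating products -/
theorem alt_map {G' : Type} [Group G'] (q : G →* G') {A B K : Subgroup G} {A' B' K' : Subgroup G'}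
    (hA : ∀ a ∈ A, q a ∈ A') (hB : ∀ b ∈ B, q b ∈ B') (hAK : ∀ a ∈ A, a ∉ K → q a ∉ K')
    (hBK : ∀ b ∈ B, b ∉ K → q b ∉ K') (h : G) (hh : Alt A B K h) : Alt A' B' K' (q h) := by
  induction hh with
  | base b a hb hbK ha =>
    rw [map_mul]
    exact Alt.base _ _ (hB b hb) (hBK b hb hbK) (hA a ha)
  | step b a g hb hbK ha haK hg ih =>
    rw [map_mul, map_mul]
    exact Alt.step _ _ _ (hB b hb) (hBK b hb hbK) (hA a ha) (hAK a ha haK) ih

/-- a group generated by two subgroups `A`, `B` such that no alternating product is in `A` is their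
amalgam over `K` -/
theorem amg_of_alt (A B K : Subgroup G) (hA : K ≤ A) (hB : K ≤ B) (hgen : A ⊔ B = ⊤)
    (halt : ∀ h, Alt A B K h → h ∉ A) : Amg A B K := by
  refine ⟨hA, hB, hgen, ?_⟩
  intro H _ f g hfg
  let A' : Subgroup (G × H) := (A.subtype.prod f).range
  let B' : Subgroup (G × H) := (B.subtype.prod g).range
  let K' : Subgroup (G × H) := ((Subgroup.inclusion hA).range).map (A.subtype.prod f)
  have hK' : ∀ x : G × H, x ∈ K' ↔ ∃ (k : G) (hk : k ∈ K), x = (k, f ⟨k, hA hk⟩) := by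
    intro x
    constructor
    · rintro ⟨y, ⟨k, rfl⟩, rfl⟩
      exact ⟨k.1, k.2, rfl⟩
    · rintro ⟨k, hk, rfl⟩
      exact ⟨⟨k, hA hk⟩, ⟨⟨k, hk⟩, rfl⟩, rfl⟩
  have hKA' : K' ≤ A' := by
    intro x hx
    obtain ⟨k, hk, rfl⟩ := (hK' x).1 hx
    exact ⟨⟨k, hA hk⟩, rfl⟩
  have hKB' : K' ≤ B' := by
    intro x hx
    obtain ⟨k, hk, rfl⟩ := (hK' x).1 hx
    refine ⟨⟨k, hB hk⟩, ?_⟩
    show ((k, g ⟨k, hB hk⟩) : G × H) = (k, f ⟨k, hA hk⟩)
    rw [hfg k hk]
  have hq : ∀ h' : G × H, Alt A' B' K' h' → Alt A B K h'.1 := by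
    intro h' hh'
    refine alt_map (MonoidHom.fst G H) ?_ ?_ ?_ ?_ h' hh'
    · rintro _ ⟨a, rfl⟩
      exact a.2
    · rintro _ ⟨b, rfl⟩
      exact b.2
    · rintro _ ⟨a, rfl⟩ ha h
      exact ha ((hK' _).2 ⟨a.1, h, rfl⟩)
    · rintro _ ⟨b, rfl⟩ hb h
      refine hb ((hK' _).2 ⟨b.1, h, ?_⟩)
      show ((b.1, g b) : G × H) = _
      rw [hfg b.1 h]
  have huniq : ∀ x : H, ((1 : G), x) ∈ A' ⊔ B' → x = 1 := by
    intro x hx
    rcases nf_sup A' B' K' hKA' hKB' _ hx with ⟨a, ha⟩ | ⟨a', ha', h', hh', heq⟩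
    · have h1 : a.1 = 1 := congrArg Prod.fst ha
      have h2 : f a = x := congrArg Prod.snd ha
      have h3 : a = 1 := Subtype.ext h1
      rw [← h2, h3, map_one]
    · exfalso
      obtain ⟨a, rfl⟩ := ha'
      have h1 : (1 : G) = a.1 * h'.1 := congrArg Prod.fst heq
      have h2 : h'.1 = a.1⁻¹ := (inv_eq_of_mul_eq_one_right h1.symm).symm
      exact halt _ (hq h' hh') (by rw [h2]; exact A.inv_mem a.2)
  let Λ : Subgroup (G × H) := A' ⊔ B'
  let p1 : Λ →* G := (MonoidHom.fst G H).comp Λ.subtype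
  have hinj : Function.Injective p1 := by
    rw [injective_iff_map_eq_one]
    intro x hx
    have hx1 : x.1.1 = 1 := hx
    apply Subtype.ext
    have h1 : ((1 : G), x.1.2) ∈ A' ⊔ B' := by
      rw [← hx1]
      exact x.2
    show x.1 = 1
    exact Prod.ext hx1 (huniq _ h1)
  have hsurj : Function.Surjective p1 := by
    rw [← MonoidHom.range_eq_top, eq_top_iff, ← hgen]
    refine sup_le ?_ ?_
    · intro a ha
      exact ⟨⟨((a, f ⟨a, ha⟩) : G × H), Subgroup.mem_sup_left ⟨⟨a, ha⟩, rfl⟩⟩, rfl⟩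
    · intro b hb
      exact ⟨⟨((b, g ⟨b, hb⟩) : G × H), Subgroup.mem_sup_right ⟨⟨b, hb⟩, rfl⟩⟩, rfl⟩
  let e : Λ ≃* G := MulEquiv.ofBijective p1 ⟨hinj, hsurj⟩
  refine ⟨((MonoidHom.snd G H).comp Λ.subtype).comp e.symm.toMonoidHom, ?_, ?_⟩
  · intro a
    have h1 : e.symm (a : G) = ⟨((a.1, f a) : G × H), Subgroup.mem_sup_left ⟨a, rfl⟩⟩ := by
      rw [MulEquiv.symm_apply_eq]
      rfl
    show (e.symm (a : G)).1.2 = f a
    rw [h1]
  · intro b
    have h1 : e.symm (b : G) = ⟨((b.1, g b) : G × H), Subgroup.mem_sup_right ⟨b, rfl⟩⟩ := by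
      rw [MulEquiv.symm_apply_eq]
      rfl
    show (e.symm (b : G)).1.2 = g b
    rw [h1]

/-- the embedding of an amalgam in `F(X) ⋊ P` (extracted from the proof of `Y417.FJ.t_am`) -/
theorem embed {P : Type} [Group P] (A B K : Subgroup G) (hamg : Amg A B K) (f : G →* P)
    (hfA : ∀ a ∈ A, f a = 1 → a = 1) (hfB : ∀ b ∈ B, f b = 1 → b = 1) :
    ∃ (X : Type) (_ : MulAction P X) (Θ : G →* FreeGroup X ⋊[permAut X P] P),
      Function.Injective Θ ∧ ∀ g, (Θ g).right = f g := by
  let X : Type := P ⧸ K.map f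
  let x1 : X := ((1 : P) : P ⧸ K.map f)
  let z : FreeGroup X ⋊[permAut X P] P := SemidirectProduct.inl (FreeGroup.of x1)
  have hx1 : ∀ p : P, p • x1 = x1 ↔ p ∈ K.map f := by
    intro p
    show ((p * 1 : P) : P ⧸ K.map f) = ((1 : P) : P ⧸ K.map f) ↔ _
    rw [mul_one, eq_comm, QuotientGroup.eq]
    simp
  have hz : ∀ p : P, p ∈ K.map f →
      z * SemidirectProduct.inr p * z⁻¹ = (SemidirectProduct.inr p : FreeGroup X ⋊[permAut X P] P) := by
    intro p hp
    have h1 : (permAut X P p) (FreeGroup.of x1) = FreeGroup.of x1 := by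
      have := permAut_mk p [((x1, true) : X × Bool)]
      have h2 : (permAut X P p) (FreeGroup.of x1) = FreeGroup.of (p • x1) := this
      rw [h2, (hx1 p).2 hp]
    have h3 : (SemidirectProduct.inr p : FreeGroup X ⋊[permAut X P] P) * z * (SemidirectProduct.inr p)⁻¹ = z := by
      rw [← map_inv, ← SemidirectProduct.inl_aut, h1]
    have h4 : (SemidirectProduct.inr p : FreeGroup X ⋊[permAut X P] P) * z = z * SemidirectProduct.inr p := by
      rw [mul_inv_eq_iff_eq_mul] at h3; exact h3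
    rw [← h4, mul_inv_cancel_right]
  let fA : A →* FreeGroup X ⋊[permAut X P] P := (SemidirectProduct.inr.comp f).comp A.subtype
  let fB : B →* FreeGroup X ⋊[permAut X P] P :=
    ((MulAut.conj z).toMonoidHom.comp (SemidirectProduct.inr.comp f)).comp B.subtype
  obtain ⟨Θ, hΘA, hΘB⟩ := hamg.univ (FreeGroup X ⋊[permAut X P] P) fA fB (by
    intro c hc
    show SemidirectProduct.inr (f c) = z * SemidirectProduct.inr (f c) * z⁻¹
    rw [hz (f c) ⟨c, hc, rfl⟩])
  have hA' : ∀ a ∈ A, Θ a = SemidirectProduct.inr (f a) := fun a ha => hΘA ⟨a, ha⟩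
  have hB' : ∀ b ∈ B, Θ b = z * SemidirectProduct.inr (f b) * z⁻¹ := fun b hb => hΘB ⟨b, hb⟩
  have hright : ∀ g : G, (Θ g).right = f g := by
    intro g
    have hg : g ∈ Subgroup.closure ((A : Set G) ∪ B) := by
      rw [← Subgroup.sup_eq_closure, hamg.gen]; trivial
    induction hg using Subgroup.closure_induction with
    | mem x hx =>
      rcases hx with hx | hx
      · rw [hA' x hx]; simp
      · rw [hB' x hx]; simp [z]
    | one => simp
    | mul x y _ _ hx hy => rw [map_mul, map_mul, SemidirectProduct.mul_right, hx, hy]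
    | inv x _ hx => rw [map_inv, map_inv, SemidirectProduct.inv_right, hx]
  have hleft : ∀ g h : G, (Θ (g * h)).left = (Θ g).left * permAut X P (f g) (Θ h).left := by
    intro g h
    rw [map_mul, SemidirectProduct.mul_left, hright]
  have hlA : ∀ a ∈ A, (Θ a).left = 1 := by
    intro a ha
    rw [hA' a ha]; simp
  have hlB : ∀ b ∈ B, (Θ b).left = FreeGroup.mk [(x1, true), (f b • x1, false)] := by
    intro b hb
    rw [hB' b hb]
    have h1 : (z * SemidirectProduct.inr (f b) * z⁻¹).left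
        = FreeGroup.of x1 * permAut X P (f b) (FreeGroup.of x1)⁻¹ := by
      simp [z, SemidirectProduct.mul_left]
    have h2 : permAut X P (f b) (FreeGroup.of x1)⁻¹ = FreeGroup.mk [((f b • x1, false) : X × Bool)] := by
      have := permAut_mk (f b) [((x1, false) : X × Bool)]
      rw [FreeGroup.of, FreeGroup.inv_mk]
      exact this
    rw [h1, h2, FreeGroup.of, FreeGroup.mul_mk]
    rfl
  have hoA : ∀ a ∈ A, a ∉ K → f a ∉ K.map f := by
    rintro a ha haK ⟨k, hk, hfk⟩
    have : f (a * k⁻¹) = 1 := by rw [map_mul, map_inv, hfk, mul_inv_cancel]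
    have h2 := hfA _ (A.mul_mem ha (A.inv_mem (hamg.le_left hk))) this
    exact haK (by rw [mul_inv_eq_one.1 h2]; exact hk)
  have hoB : ∀ b ∈ B, b ∉ K → f b ∉ K.map f := by
    rintro b hb hbK ⟨k, hk, hfk⟩
    have : f (b * k⁻¹) = 1 := by rw [map_mul, map_inv, hfk, mul_inv_cancel]
    have h2 := hfB _ (B.mul_mem hb (B.inv_mem (hamg.le_right hk))) this
    exact hbK (by rw [mul_inv_eq_one.1 h2]; exact hk)
  have halt : ∀ g, Alt A B K g → ∃ L : List (X × Bool), FreeGroup.IsReduced ((x1, true) :: L) ∧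
      (Θ g).left = FreeGroup.mk ((x1, true) :: L) := by
    intro g hg
    induction hg with
    | base b a hb hbK ha =>
      refine ⟨[(f b • x1, false)], ?_, ?_⟩
      · rw [FreeGroup.isReduced_cons_cons]
        refine ⟨fun h => ?_, FreeGroup.IsReduced.singleton⟩
        exact absurd ((hx1 _).1 h.symm) (hoB b hb hbK)
      · rw [hleft, hlA a ha, map_one, mul_one, hlB b hb]
    | step b a g hb hbK ha haK hg ih =>
      obtain ⟨L, hL, hLg⟩ := ih
      refine ⟨(f b • x1, false) :: ((x1, true) :: L).map (fun q => (f (b * a) • q.1, q.2)), ?_, ?_⟩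
      · rw [FreeGroup.isReduced_cons_cons]
        refine ⟨fun h => absurd ((hx1 _).1 h.symm) (hoB b hb hbK), ?_⟩
        rw [List.map_cons, FreeGroup.isReduced_cons_cons]
        refine ⟨fun h => ?_, ?_⟩
        · exfalso
          have h' : f b • x1 = f (b * a) • x1 := h
          rw [map_mul, mul_smul] at h'
          exact hoA a ha haK ((hx1 _).1 (MulAction.injective (f b) h').symm)
        · have := reduced_map (f (b * a)) _ hL
          rwa [List.map_cons] at this
      · have h1 : (Θ (b * a)).left = FreeGroup.mk [(x1, true), (f b • x1, false)] := by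
          rw [hleft, hlA a ha, map_one, mul_one, hlB b hb]
        rw [hleft, h1, hLg, permAut_mk, FreeGroup.mul_mk]
        rfl
  refine ⟨X, inferInstance, Θ, ?_, hright⟩
  rw [injective_iff_map_eq_one]
  intro g hg
  rcases nf_all A B K hamg.le_left hamg.le_right hamg.gen g with hgA | ⟨a, ha, h, hh, rfl⟩
  · have h1 := hright g
    rw [hg] at h1
    exact hfA g hgA h1.symm
  · exfalso
    obtain ⟨L, hL, hLg⟩ := halt h hh
    have h1 := hleft a h
    rw [hg, hlA a ha, one_mul, hLg, permAut_mk] at h1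
    have h2 : FreeGroup.IsReduced (((x1, true) :: L).map fun q => (f a • q.1, q.2)) :=
      reduced_map _ _ hL
    classical
    have h3 : (1 : FreeGroup X).toWord = (((x1, true) :: L).map fun q => (f a • q.1, q.2)) := by
      have h4 : (FreeGroup.mk (((x1, true) :: L).map fun q => (f a • q.1, q.2))).toWord
          = (((x1, true) :: L).map fun q => (f a • q.1, q.2)) := by
        rw [FreeGroup.toWord_mk]
        exact h2.reduce_eq
      rw [← h4]
      exact congrArg _ h1
    simp at h3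

/-- the main tool: `G` is an amalgam, `f : G → P` is injective on the factors, and `ρ : H → G` is
injective with `f (ρ H)` in a subgroup `P₀` in `C`; then `H` is in `C` -/
theorem sub_amg {C : ∀ (G : Type) [Group G], Prop} (hC : ClosedE C) (hperm : S_PERM)
    {P : Type} [Group P] (A B K : Subgroup G) (hamg : Amg A B K) (f : G →* P)
    (hfA : ∀ a ∈ A, f a = 1 → a = 1) (hfB : ∀ b ∈ B, f b = 1 → b = 1)
    {H : Type} [Group H] (ρ : H →* G) (hρ : Function.Injective ρ) (P0 : Subgroup P) (h0 : C P0)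
    (hH : ∀ h, f (ρ h) ∈ P0) : C H := by
  obtain ⟨X, _, Θ, hΘ, hr⟩ := embed A B K hamg f hfA hfB
  let Ψ : H →* FreeGroup X ⋊[permAut X P0] P0 := MonoidHom.mk'
    (fun h => ⟨(Θ (ρ h)).left, ⟨f (ρ h), hH h⟩⟩) (by
      intro x y
      apply SemidirectProduct.ext
      · show (Θ (ρ (x * y))).left = (Θ (ρ x)).left * permAut X P0 ⟨f (ρ x), hH x⟩ (Θ (ρ y)).left
        rw [map_mul, map_mul, SemidirectProduct.mul_left, hr]
        rfl
      · apply Subtype.ext
        show f (ρ (x * y)) = f (ρ x) * f (ρ y)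
        rw [map_mul, map_mul])
  refine hC.base.of_injective H _ Ψ ?_ (hperm C hC X P0 h0)
  intro x y hxy
  apply hρ
  apply hΘ
  apply SemidirectProduct.ext
  · exact congrArg (fun w : FreeGroup X ⋊[permAut X P0] P0 => w.left) hxy
  · rw [hr, hr]
    exact congrArg (fun w : FreeGroup X ⋊[permAut X P0] P0 => w.right.1) hxy

end graph

end Pool.Agent.N77.GL
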