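import Pool.Agent.N77.GL.Two
import Pool.Agent.Y961.FJ.Perm
import Pool.Agent.Y529.FJ.Ext
import Pool.Agent.Y430.SS.Lf

/-!
# Generation, and the theorem for rings with a degree function
-/

set_option autoImplicit false

namespace Pool.Agent.N77.GL

open Pool.Agent.Y110.FJ
open Pool.Agent.Y417.FJ (Alt)

section mats

variable {A : Type} [Ring A]

/-- the permutation matrix -/
def sw : G2 A where
  val := !![0, 1; 1, 0]
  inv := !![0, 1; 1, 0]
  val_inv := by
    rw [Matrix.mul_fin_two, Matrix.one_fin_two]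
    simp
  inv_val := by
    rw [Matrix.mul_fin_two, Matrix.one_fin_two]
    simp

/-- upper unipotent matrices -/
def Up (q : A) : G2 A where
  val := !![1, q; 0, 1]
  inv := !![1, -q; 0, 1]
  val_inv := by
    rw [Matrix.mul_fin_two, Matrix.one_fin_two]
    simp
  inv_val := by
    rw [Matrix.mul_fin_two, Matrix.one_fin_two]
    simp

/-- lower unipotent matrices -/
def Lo (q : A) : G2 A where
  val := !![1, 0; q, 1]
  inv := !![1, 0; -q, 1]
  val_inv := by
    rw [Matrix.mul_fin_two, Matrix.one_fin_two]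
    simp
  inv_val := by
    rw [Matrix.mul_fin_two, Matrix.one_fin_two]
    simp

theorem mul_sw (M : G2 A) (i : Fin 2) : (M * sw).1 i 0 = M.1 i 1 ∧ (M * sw).1 i 1 = M.1 i 0 := by
  constructor
  · show (M.1 * (!![0, 1; 1, 0] : Matrix (Fin 2) (Fin 2) A)) i 0 = _
    rw [Matrix.mul_apply, Fin.sum_univ_two]
    simp
  · show (M.1 * (!![0, 1; 1, 0] : Matrix (Fin 2) (Fin 2) A)) i 1 = _
    rw [Matrix.mul_apply, Fin.sum_univ_two]
    simp

theorem sw_mul (M : G2 A) (j : Fin 2) : (sw * M).1 0 j = M.1 1 j ∧ (sw * M).1 1 j = M.1 0 j := by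
  constructor
  · show ((!![0, 1; 1, 0] : Matrix (Fin 2) (Fin 2) A) * M.1) 0 j = _
    rw [Matrix.mul_apply, Fin.sum_univ_two]
    simp
  · show ((!![0, 1; 1, 0] : Matrix (Fin 2) (Fin 2) A) * M.1) 1 j = _
    rw [Matrix.mul_apply, Fin.sum_univ_two]
    simp

theorem mul_Up (M : G2 A) (q : A) (i : Fin 2) :
    (M * Up q).1 i 0 = M.1 i 0 ∧ (M * Up q).1 i 1 = M.1 i 0 * q + M.1 i 1 := by
  constructor
  · show (M.1 * (!![1, q; 0, 1] : Matrix (Fin 2) (Fin 2) A)) i 0 = _
    rw [Matrix.mul_apply, Fin.sum_univ_two]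
    simp
  · show (M.1 * (!![1, q; 0, 1] : Matrix (Fin 2) (Fin 2) A)) i 1 = _
    rw [Matrix.mul_apply, Fin.sum_univ_two]
    simp

theorem mul_Lo (M : G2 A) (q : A) (i : Fin 2) :
    (M * Lo q).1 i 0 = M.1 i 0 + M.1 i 1 * q ∧ (M * Lo q).1 i 1 = M.1 i 1 := by
  constructor
  · show (M.1 * (!![1, 0; q, 1] : Matrix (Fin 2) (Fin 2) A)) i 0 = _
    rw [Matrix.mul_apply, Fin.sum_univ_two]
    simp
  · show (M.1 * (!![1, 0; q, 1] : Matrix (Fin 2) (Fin 2) A)) i 1 = _
    rw [Matrix.mul_apply, Fin.sum_univ_two]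
    simp

theorem sw_sw : (sw : G2 A) * sw = 1 := by
  apply Units.ext
  show (!![0, 1; 1, 0] : Matrix (Fin 2) (Fin 2) A) * !![0, 1; 1, 0] = 1
  rw [Matrix.mul_fin_two, Matrix.one_fin_two]
  simp

end mats

namespace Deg

variable {A : Type} [Ring A] (D : Deg A)

/-- the amalgam -/
def Gm (m : ℕ) : Subgroup (G2 A) := D.E0 ⊔ D.Bm m

theorem Gm_mono : Monotone D.Gm := fun _ _ h => sup_le_sup_left (D.Bm_mono h) _

/-- elements of the union -/
def Good (M : G2 A) : Prop := ∃ m, M ∈ D.Gm m

theorem good_mul {M N : G2 A} (hM : D.Good M) (hN : D.Good N) : D.Good (M * N) := by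
  obtain ⟨m, hm⟩ := hM
  obtain ⟨n, hn⟩ := hN
  exact ⟨max m n, (D.Gm (max m n)).mul_mem (D.Gm_mono (le_max_left _ _) hm)
    (D.Gm_mono (le_max_right _ _) hn)⟩

theorem good_inv {M : G2 A} (hM : D.Good M) : D.Good M⁻¹ := by
  obtain ⟨m, hm⟩ := hM
  exact ⟨m, (D.Gm m).inv_mem hm⟩

theorem good_of_mul {M N : G2 A} (hN : D.Good N) (h : D.Good (M * N)) : D.Good M := by
  have := D.good_mul h (D.good_inv hN)
  rwa [mul_inv_cancel_right] at this

theorem good_sw : D.Good sw := by
  refine ⟨0, Subgroup.mem_sup_left ?_⟩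
  have h : ∀ i j : Fin 2, D.d ((!![0, 1; 1, 0] : Matrix (Fin 2) (Fin 2) A) i j) ≤ 0 := by
    intro i j
    fin_cases i <;> fin_cases j <;> simp [D.zero, D.one]
  exact ⟨h, h⟩

theorem good_lower (M : G2 A) (h : M.1 0 1 = 0) : D.Good M := by
  have h1 : (sw * M * sw).1 1 0 = 0 := by
    rw [(mul_sw _ 1).1, (sw_mul M 1).2, h]
  obtain ⟨m, hm⟩ := D.tri_mem _ h1
  have h2 : D.Good (sw * M * sw) := ⟨m, Subgroup.mem_sup_right hm⟩
  have h3 := D.good_of_mul D.good_sw h2
  have h4 := D.good_mul D.good_sw h3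
  rwa [← mul_assoc, sw_sw, one_mul] at h4

theorem good_Lo (q : A) : D.Good (Lo q) := D.good_lower _ rfl

theorem good_Up (q : A) : D.Good (Up q) := by
  obtain ⟨m, hm⟩ := D.tri_mem (Up q) rfl
  exact ⟨m, Subgroup.mem_sup_right hm⟩

theorem good_00 (M : G2 A) (h : M.1 0 0 = 0) : D.Good M := by
  apply D.good_of_mul D.good_sw
  apply D.good_lower
  rw [(mul_sw M 0).2, h]

theorem good_unit (M : G2 A) (h : D.d (M.1 0 0) = 0) : D.Good M := by
  obtain ⟨a', ha'⟩ := D.unit _ h
  apply D.good_of_mul (D.good_Up (-(a' * M.1 0 1)))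
  apply D.good_lower
  rw [(mul_Up M _ 0).2, mul_neg, ← mul_assoc, ha', one_mul, neg_add_cancel]

theorem good_unit' (M : G2 A) (h : D.d (M.1 0 1) = 0) : D.Good M := by
  apply D.good_of_mul D.good_sw
  apply D.good_unit
  rw [(mul_sw M 0).1, h]

theorem good_all (M : G2 A) : D.Good M := by
  have key : ∀ N : ℕ, ∀ M : G2 A, (D.d (M.1 0 0)).unbotD 0 + (D.d (M.1 0 1)).unbotD 0 = N →
      D.Good M := by
    intro N
    induction N using Nat.strong_induction_on with
    | _ N ih =>
    intro M hN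
    by_cases ha0 : M.1 0 0 = 0
    · exact D.good_00 M ha0
    by_cases hb0 : M.1 0 1 = 0
    · exact D.good_lower M hb0
    by_cases ha1 : D.d (M.1 0 0) = 0
    · exact D.good_unit M ha1
    by_cases hb1 : D.d (M.1 0 1) = 0
    · exact D.good_unit' M hb1
    have e := mulinv M 0 0
    rw [Matrix.one_apply_eq] at e
    set a := M.1 0 0 with ha
    set b := M.1 0 1 with hb
    set u := (M⁻¹).1 0 0
    set v := (M⁻¹).1 1 0
    obtain ⟨na, hna⟩ : ∃ n : ℕ, D.d a = n := by
      rcases wb (D.d a) with h | h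
      · exact absurd ((D.bot_iff a).1 h) ha0
      · exact h
    obtain ⟨nb, hnb⟩ : ∃ n : ℕ, D.d b = n := by
      rcases wb (D.d b) with h | h
      · exact absurd ((D.bot_iff b).1 h) hb0
      · exact h
    have h1 : D.d (a * u + b * v) = 0 := by rw [e]; exact D.one
    rcases lt_trichotomy (D.d (a * u)) (D.d (b * v)) with h | h | h
    · exfalso
      rw [D.add_eq h] at h1
      exact hb1 (D.of_mul_one h1).1
    · have hpos : (0 : WithBot ℕ) < D.d (a * u) := by
        rcases wb (D.d (a * u)) with h2 | ⟨n, h2⟩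
        · exfalso
          have h3 := D.add (a * u) (b * v)
          rw [h1, ← h, h2, max_self] at h3
          exact absurd h3 (by simp)
        · rcases Nat.eq_zero_or_pos n with h3 | h3
          · exfalso
            subst h3
            exact ha1 (D.of_mul_one h2).1
          · rw [h2]; exact_mod_cast h3
      have hlt : D.d (a * u + b * v) < D.d (a * u) := by rw [h1]; exact hpos
      rcases le_total (D.d b) (D.d a) with hle | hle
      · obtain ⟨q, hq⟩ := D.wa a b u v hlt h hle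
        apply D.good_of_mul (D.good_Lo (-q))
        refine ih _ ?_ _ rfl
        rw [(mul_Lo M (-q) 0).1, (mul_Lo M (-q) 0).2, ← hN, ← ha, ← hb, mul_neg, ← sub_eq_add_neg,
          hna, hnb]
        have hna1 : 1 ≤ na := by
          rcases Nat.eq_zero_or_pos na with h3 | h3
          · subst h3; exact absurd hna ha1
          · exact h3
        rcases wb (D.d (a - b * q)) with h3 | ⟨k, h3⟩
        · rw [h3]
          simp only [WithBot.unbotD_bot]
          show 0 + _ < na + _
          omega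
        · rw [h3] at hq ⊢
          rw [hna] at hq
          have : k < na := by exact_mod_cast hq
          show k + _ < na + _
          omega
      · have hlt' : D.d (b * v + a * u) < D.d (b * v) := by rw [add_comm, ← h]; exact hlt
        obtain ⟨q, hq⟩ := D.wa b a v u hlt' h.symm hle
        apply D.good_of_mul (D.good_Up (-q))
        refine ih _ ?_ _ rfl
        rw [(mul_Up M (-q) 0).1, (mul_Up M (-q) 0).2, ← hN, ← ha, ← hb, mul_neg, neg_add_eq_sub,
          hna, hnb]
        have hnb1 : 1 ≤ nb := by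
          rcases Nat.eq_zero_or_pos nb with h3 | h3
          · subst h3; exact absurd hnb hb1
          · exact h3
        rcases wb (D.d (b - a * q)) with h3 | ⟨k, h3⟩
        · rw [h3]
          simp only [WithBot.unbotD_bot]
          show _ + 0 < _ + nb
          omega
        · rw [h3] at hq ⊢
          rw [hnb] at hq
          have : k < nb := by exact_mod_cast hq
          show _ + k < _ + nb
          omega
    · exfalso
      rw [D.add_eq' h] at h1
      exact ha1 (D.of_mul_one h1).1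
  exact key _ M rfl

end Deg

/-- the homomorphism of the groups of matrices given by a ring homomorphism -/
def mG {A S : Type} [Ring A] [Ring S] (π : A →+* S) : G2 A →* G2 S :=
  Units.map (RingHom.toMonoidHom (π.mapMatrix : Matrix (Fin 2) (Fin 2) A →+* Matrix (Fin 2) (Fin 2) S))

theorem mG_apply {A S : Type} [Ring A] [Ring S] (π : A →+* S) (M : G2 A) (i j : Fin 2) :
    (mG π M).1 i j = π (M.1 i j) := rfl

theorem mG_inj {A S : Type} [Ring A] [Ring S] (π : A →+* S) (h : Function.Injective π) :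
    Function.Injective (mG π) := by
  intro M N hMN
  apply Units.ext
  ext i j
  apply h
  rw [← mG_apply, ← mG_apply, hMN]

theorem mG_comp {A S T : Type} [Ring A] [Ring S] [Ring T] (π : A →+* S) (τ : S →+* T) (M : G2 A) :
    mG τ (mG π M) = mG (τ.comp π) M := by
  apply Units.ext
  ext i j
  rfl

/-- **the main theorem for rings with a degree function** -/
theorem main_abs {C : ∀ (G : Type) [Group G], Prop} (hC : ClosedE C)
    {T A : Type} [Ring T] [Ring A] (D : Deg A) (ρ : T →+* A) (hρ : Function.Injective ρ)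
    (S R' : ℕ → Type) [∀ m, Ring (S m)] [∀ m, Ring (R' m)] (π : ∀ m, A →+* S m)
    (hπ : ∀ (m : ℕ) (a : A), D.d a ≤ (m : WithBot ℕ) → π m a = 0 → a = 0)
    (τ : ∀ m, T →+* R' m) (σ : ∀ m, R' m →+* S m) (hσ : ∀ m, Function.Injective (σ m))
    (hcomm : ∀ m t, π m (ρ t) = σ m (τ m t))
    (hR : ∀ m, C (G2 (R' m))) : C (G2 T) := by
  have hperm : S_PERM := Pool.Agent.Y961.FJ.t_perm Pool.Agent.Y529.FJ.t_ext
  refine Pool.Agent.Y430.SS.t_union C hC.base (G2 T) (fun m => (D.Gm m).comap (mG ρ))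
    (fun m n h => Subgroup.comap_mono (D.Gm_mono h)) (fun g => D.good_all (mG ρ g)) ?_
  intro m
  -- the amalgam
  let G : Type := D.Gm m
  let A0 : Subgroup (D.Gm m) := D.E0.subgroupOf (D.Gm m)
  let B0 : Subgroup (D.Gm m) := (D.Bm m).subgroupOf (D.Gm m)
  let K0 : Subgroup (D.Gm m) := (D.E0 ⊓ D.Bm m).subgroupOf (D.Gm m)
  have hgen : A0 ⊔ B0 = ⊤ := by
    have h1 : A0.map (D.Gm m).subtype = D.E0 :=
      Subgroup.map_subgroupOf_eq_of_le (show D.E0 ≤ D.Gm m from le_sup_left)
    have h2 : B0.map (D.Gm m).subtype = D.Bm m :=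
      Subgroup.map_subgroupOf_eq_of_le (show D.Bm m ≤ D.Gm m from le_sup_right)
    apply Subgroup.map_injective (D.Gm m).subtype_injective
    rw [Subgroup.map_sup, h1, h2, ← MonoidHom.range_eq_map, Subgroup.range_subtype]
    rfl
  have hamg : Amg A0 B0 K0 := by
    refine amg_of_alt A0 B0 K0 ?_ ?_ hgen ?_
    · exact fun x hx => hx.1
    · exact fun x hx => hx.2
    · intro h hh hA
      have h1 : Alt D.E0 (D.Bm m) (D.E0 ⊓ D.Bm m) ((D.Gm m).subtype h) := by
        refine alt_map (D.Gm m).subtype ?_ ?_ ?_ ?_ h hh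
        · exact fun a ha => ha
        · exact fun a ha => ha
        · exact fun a _ ha => ha
        · exact fun a _ ha => ha
      exact D.alt_not m _ h1 hA
  let f : D.Gm m →* G2 (S m) := (mG (π m)).comp (D.Gm m).subtype
  have h0m : (0 : WithBot ℕ) ≤ m := by exact_mod_cast Nat.zero_le m
  have hone : ∀ (x : D.Gm m), (∀ i j, D.d (x.1.1 i j) ≤ m) → f x = 1 → x = 1 := by
    intro x hx hfx
    apply Subtype.ext
    apply Units.ext
    ext i j
    have h1 : π m (x.1.1 i j) = π m ((1 : Matrix (Fin 2) (Fin 2) A) i j) := by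
      have h2 : (f x).1 i j = (1 : G2 (S m)).1 i j := by rw [hfx]
      have h3 : (f x).1 i j = π m (x.1.1 i j) := rfl
      rw [← h3, h2, Units.val_one, Matrix.one_apply, Matrix.one_apply]
      split_ifs <;> simp
    have h4 : π m (x.1.1 i j - (1 : Matrix (Fin 2) (Fin 2) A) i j) = 0 := by
      rw [map_sub, h1, sub_self]
    have h5 : D.d ((1 : Matrix (Fin 2) (Fin 2) A) i j) ≤ m := by
      rw [Matrix.one_apply]
      split_ifs
      · rw [D.one]; exact h0m
      · rw [D.zero]; exact bot_le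
    have h7 : D.d (x.1.1 i j - (1 : Matrix (Fin 2) (Fin 2) A) i j) ≤ m := by
      rw [sub_eq_add_neg]
      refine D.add_le (hx i j) ?_
      rw [D.neg]; exact h5
    exact sub_eq_zero.1 (hπ m _ h7 h4)
  refine sub_amg hC hperm A0 B0 K0 hamg f ?_ ?_
    (((mG ρ).comp ((D.Gm m).comap (mG ρ)).subtype).codRestrict (D.Gm m) (fun x => x.2)) ?_
    (mG (σ m)).range ?_ ?_
  · intro a ha
    exact hone a fun i j => (ha.1 i j).trans h0m
  · intro b hb
    obtain ⟨⟨h1, h2⟩, ⟨h3, h4, h5, h6⟩, h7, h8⟩ := hb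
    refine hone b fun i j => ?_
    fin_cases i <;> fin_cases j
    · exact h3.le.trans h0m
    · exact h7
    · show D.d (((D.Gm m).subtype b).1 1 0) ≤ m
      rw [h1, D.zero]; exact bot_le
    · exact h4.le.trans h0m
  · intro x y hxy
    apply Subtype.ext
    apply mG_inj ρ hρ
    exact congrArg Subtype.val hxy
  · exact hC.base.of_injective _ _
      (MonoidHom.ofInjective (mG_inj (σ m) (hσ m))).symm.toMonoidHom
      (MonoidHom.ofInjective (mG_inj (σ m) (hσ m))).symm.injective (hR m)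
  · intro h
    refine ⟨mG (τ m) h.1, ?_⟩
    show mG (σ m) (mG (τ m) h.1) = mG (π m) (mG ρ h.1)
    apply Units.ext
    ext i j
    exact (hcomm m (h.1.1 i j)).symm

end Pool.Agent.N77.GL
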