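import Pool.Agent.N77.GL.Amg

/-!
# Invertible two by two matrices over rings with a degree function and the weak algorithm

The group is the increasing union of amalgams of the group of the matrices of degree `≤ 0` and the
groups of the upper triangular matrices of degree `≤ m`.
-/

set_option autoImplicit false

namespace Pool.Agent.N77.GL

open Pool.Agent.Y110.FJ
open Pool.Agent.Y417.FJ (Alt)

/-- a degree function with the two-term weak algorithm -/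
structure Deg (A : Type) [Ring A] where
  d : A → WithBot ℕ
  bot_iff : ∀ a, d a = ⊥ ↔ a = 0
  mul : ∀ a b, d (a * b) = d a + d b
  add : ∀ a b, d (a + b) ≤ max (d a) (d b)
  neg : ∀ a, d (-a) = d a
  one : d 1 = 0
  unit : ∀ a, d a = 0 → ∃ b, a * b = 1
  wa : ∀ a b u v, d (a * u + b * v) < d (a * u) → d (a * u) = d (b * v) → d b ≤ d a →
    ∃ q, d (a - b * q) < d a

/-- the group of invertible two by two matrices -/
abbrev G2 (A : Type) [Ring A] : Type := (Matrix (Fin 2) (Fin 2) A)ˣ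

theorem wb (x : WithBot ℕ) : x = ⊥ ∨ ∃ n : ℕ, x = (n : WithBot ℕ) := by
  cases x with
  | bot => exact Or.inl rfl
  | coe n => exact Or.inr ⟨n, rfl⟩

namespace Deg

variable {A : Type} [Ring A] (D : Deg A)

theorem zero : D.d 0 = ⊥ := (D.bot_iff 0).2 rfl

theorem nonneg {a : A} (h : a ≠ 0) : 0 ≤ D.d a := by
  have h1 : D.d a ≠ ⊥ := fun h2 => h ((D.bot_iff a).1 h2)
  rcases wb (D.d a) with hd | ⟨n, hd⟩
  · exact absurd hd h1
  · rw [hd]; exact_mod_cast Nat.zero_le n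

theorem add_eq {a b : A} (h : D.d a < D.d b) : D.d (a + b) = D.d b := by
  apply le_antisymm
  · exact (D.add a b).trans (max_le h.le le_rfl)
  · by_contra hlt
    push Not at hlt
    have h1 : b = (a + b) + -a := by abel
    have h2 := D.add (a + b) (-a)
    rw [← h1, D.neg] at h2
    exact absurd h2 (not_le.2 (max_lt hlt h))

theorem add_eq' {a b : A} (h : D.d b < D.d a) : D.d (a + b) = D.d a := by
  rw [add_comm]
  exact D.add_eq h

theorem add_le {a b : A} {n : WithBot ℕ} (ha : D.d a ≤ n) (hb : D.d b ≤ n) : D.d (a + b) ≤ n :=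
  (D.add a b).trans (max_le ha hb)

theorem add_lt {a b : A} {n : WithBot ℕ} (ha : D.d a < n) (hb : D.d b < n) : D.d (a + b) < n :=
  (D.add a b).trans_lt (max_lt ha hb)

theorem eq_zero_of {a : A} (h : D.d a < 0) : a = 0 := by
  by_contra h1
  exact absurd (D.nonneg h1) (not_le.2 h)

/-- if the product is one then the degrees are zero -/
theorem of_mul_one {a b : A} (h : D.d (a * b) = 0) : D.d a = 0 ∧ D.d b = 0 := by
  rw [D.mul] at h
  rcases wb (D.d a) with ha | ⟨n, ha⟩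
  · rw [ha] at h; simp at h
  · rcases wb (D.d b) with hb | ⟨m, hb⟩
    · rw [ha, hb] at h; simp at h
    · rw [ha, hb] at h
      have h1 : n + m = 0 := by exact_mod_cast h
      have h2 : n = 0 := by omega
      have h3 : m = 0 := by omega
      subst h2; subst h3
      exact ⟨ha, hb⟩

/-- a product of elements with degrees `≤ m` and `≤ n` -/
theorem mul_le {a b : A} {m n : WithBot ℕ} (ha : D.d a ≤ m) (hb : D.d b ≤ n) :
    D.d (a * b) ≤ m + n := by
  rw [D.mul]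
  exact add_le_add ha hb

theorem mul_zero_iff (D : Deg A) {a b : A} : a * b = 0 ↔ a = 0 ∨ b = 0 := by
  rw [← D.bot_iff, D.mul, WithBot.add_eq_bot, D.bot_iff, D.bot_iff]

/-- matrices of degree `≤ 0` -/
def E0 : Subgroup (G2 A) where
  carrier := {M | (∀ i j, D.d (M.1 i j) ≤ 0) ∧ ∀ i j, D.d ((M⁻¹).1 i j) ≤ 0}
  one_mem' := by
    have h : ∀ i j : Fin 2, D.d ((1 : Matrix (Fin 2) (Fin 2) A) i j) ≤ 0 := by
      intro i j
      rw [Matrix.one_apply]
      split_ifs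
      · rw [D.one]
      · rw [D.zero]; exact bot_le
    refine ⟨h, ?_⟩
    rw [inv_one]
    exact h
  mul_mem' := by
    intro M N hM hN
    have key : ∀ P Q : Matrix (Fin 2) (Fin 2) A, (∀ i j, D.d (P i j) ≤ 0) → (∀ i j, D.d (Q i j) ≤ 0) →
        ∀ i j, D.d ((P * Q) i j) ≤ 0 := by
      intro P Q hP hQ i j
      rw [Matrix.mul_apply, Fin.sum_univ_two]
      exact D.add_le (by simpa using D.mul_le (hP i 0) (hQ 0 j))
        (by simpa using D.mul_le (hP i 1) (hQ 1 j))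
    refine ⟨key _ _ hM.1 hN.1, ?_⟩
    rw [mul_inv_rev]
    exact key _ _ hN.2 hM.2
  inv_mem' := by
    intro M hM
    exact ⟨hM.2, by rw [inv_inv]; exact hM.1⟩

/-- upper triangular matrices of degree `≤ m` -/
def Bm (m : ℕ) : Subgroup (G2 A) where
  carrier := {M | (M.1 1 0 = 0 ∧ (M⁻¹).1 1 0 = 0) ∧
    (D.d (M.1 0 0) = 0 ∧ D.d (M.1 1 1) = 0 ∧ D.d ((M⁻¹).1 0 0) = 0 ∧ D.d ((M⁻¹).1 1 1) = 0) ∧
    D.d (M.1 0 1) ≤ m ∧ D.d ((M⁻¹).1 0 1) ≤ m}
  one_mem' := by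
    rw [Set.mem_ofPred_eq, inv_one]
    simp only [Units.val_one, Matrix.one_apply_eq]
    refine ⟨⟨rfl, rfl⟩, ⟨D.one, D.one, D.one, D.one⟩, ?_, ?_⟩ <;>
    · rw [Matrix.one_apply_ne (by decide), D.zero]; exact bot_le
  mul_mem' := by
    intro M N hM hN
    obtain ⟨⟨h1, h2⟩, ⟨h3, h4, h5, h6⟩, h7, h8⟩ := hM
    obtain ⟨⟨k1, k2⟩, ⟨k3, k4, k5, k6⟩, k7, k8⟩ := hN
    have key : ∀ P Q : Matrix (Fin 2) (Fin 2) A, P 1 0 = 0 → Q 1 0 = 0 → D.d (P 0 0) = 0 →
        D.d (P 1 1) = 0 → D.d (Q 0 0) = 0 → D.d (Q 1 1) = 0 → D.d (P 0 1) ≤ m → D.d (Q 0 1) ≤ m →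
        (P * Q) 1 0 = 0 ∧ D.d ((P * Q) 0 0) = 0 ∧ D.d ((P * Q) 1 1) = 0 ∧ D.d ((P * Q) 0 1) ≤ m := by
      intro P Q a1 a2 a3 a4 a5 a6 a7 a8
      refine ⟨?_, ?_, ?_, ?_⟩
      · rw [Matrix.mul_apply, Fin.sum_univ_two, a1, a2, zero_mul, mul_zero, add_zero]
      · rw [Matrix.mul_apply, Fin.sum_univ_two, a2, mul_zero, add_zero, D.mul, a3, a5, add_zero]
      · rw [Matrix.mul_apply, Fin.sum_univ_two, a1, zero_mul, zero_add, D.mul, a4, a6, add_zero]
      · rw [Matrix.mul_apply, Fin.sum_univ_two]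
        refine D.add_le ?_ ?_
        · rw [D.mul, a3, zero_add]; exact a8
        · rw [D.mul, a6, add_zero]; exact a7
    have e1 := key M.1 N.1 h1 k1 h3 h4 k3 k4 h7 k7
    have e2 := key (N⁻¹).1 (M⁻¹).1 k2 h2 k5 k6 h5 h6 k8 h8
    rw [Set.mem_ofPred_eq, mul_inv_rev]
    exact ⟨⟨e1.1, e2.1⟩, ⟨e1.2.1, e1.2.2.1, e2.2.1, e2.2.2.1⟩, e1.2.2.2, e2.2.2.2⟩
  inv_mem' := by
    intro M hM
    obtain ⟨⟨h1, h2⟩, ⟨h3, h4, h5, h6⟩, h7, h8⟩ := hM
    rw [Set.mem_ofPred_eq, inv_inv]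
    exact ⟨⟨h2, h1⟩, ⟨h5, h6, h3, h4⟩, h8, h7⟩

theorem Bm_mono {m n : ℕ} (h : m ≤ n) : D.Bm m ≤ D.Bm n := by
  intro M hM
  obtain ⟨h1, h3, h7, h8⟩ := hM
  have hmn : (m : WithBot ℕ) ≤ n := by exact_mod_cast h
  exact ⟨h1, h3, h7.trans hmn, h8.trans hmn⟩

/-- entries of products with the inverse -/
theorem mulinv (M : G2 A) (i j : Fin 2) :
    M.1 i 0 * (M⁻¹).1 0 j + M.1 i 1 * (M⁻¹).1 1 j = (1 : Matrix (Fin 2) (Fin 2) A) i j := by
  rw [← M.mul_inv, Matrix.mul_apply, Fin.sum_univ_two]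

theorem invmul (M : G2 A) (i j : Fin 2) :
    (M⁻¹).1 i 0 * M.1 0 j + (M⁻¹).1 i 1 * M.1 1 j = (1 : Matrix (Fin 2) (Fin 2) A) i j := by
  rw [← M.inv_mul, Matrix.mul_apply, Fin.sum_univ_two]

/-- the inverse of an upper triangular matrix is upper triangular -/
theorem inv_tri (D : Deg A) (M : G2 A) (h : M.1 1 0 = 0) : (M⁻¹).1 1 0 = 0 := by
  have h1 := invmul M 1 0
  rw [h, mul_zero, add_zero, Matrix.one_apply_ne (by decide)] at h1
  rcases D.mul_zero_iff.1 h1 with h2 | h2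
  · exact h2
  · exfalso
    have h3 := invmul M 0 0
    rw [h2, h, mul_zero, mul_zero, add_zero, Matrix.one_apply_eq] at h3
    have h4 := D.one
    rw [← h3, D.zero] at h4
    exact absurd h4 (by simp)

/-- an upper triangular matrix is in `Bm` for large `m` -/
theorem tri_mem (M : G2 A) (h : M.1 1 0 = 0) : ∃ m, M ∈ D.Bm m := by
  have h' := D.inv_tri M h
  have a1 := invmul M 0 0
  rw [h, mul_zero, add_zero, Matrix.one_apply_eq] at a1
  have a2 := mulinv M 1 1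
  rw [h, zero_mul, zero_add, Matrix.one_apply_eq] at a2
  have b1 := D.of_mul_one (by rw [a1]; exact D.one)
  have b2 := D.of_mul_one (by rw [a2]; exact D.one)
  obtain ⟨m, hm⟩ : ∃ m : ℕ, D.d (M.1 0 1) ≤ m ∧ D.d ((M⁻¹).1 0 1) ≤ m := by
    have h1 : ∀ x : WithBot ℕ, ∃ m : ℕ, x ≤ m := by
      intro x
      rcases wb x with hx | ⟨n, hx⟩
      · exact ⟨0, by rw [hx]; exact bot_le⟩
      · exact ⟨n, hx.le⟩
    obtain ⟨m1, hm1⟩ := h1 (D.d (M.1 0 1))
    obtain ⟨m2, hm2⟩ := h1 (D.d ((M⁻¹).1 0 1))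
    refine ⟨max m1 m2, hm1.trans ?_, hm2.trans ?_⟩
    · exact_mod_cast le_max_left m1 m2
    · exact_mod_cast le_max_right m1 m2
  exact ⟨m, ⟨h, h'⟩, ⟨b1.2, b2.1, b1.1, b2.2⟩, hm.1, hm.2⟩

/-- an element of `Bm` whose entries have degree `≤ 0` is in `E0` -/
theorem Bm_E0 {m : ℕ} {b : G2 A} (hb : b ∈ D.Bm m) (h : D.d (b.1 0 1) ≤ 0) : b ∈ D.E0 := by
  obtain ⟨⟨h1, h2⟩, ⟨h3, h4, h5, h6⟩, h7, h8⟩ := hb
  have hi : D.d ((b⁻¹).1 0 1) ≤ 0 := by
    have e := mulinv b 0 1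
    rw [Matrix.one_apply_ne (by decide)] at e
    have e2 : b.1 0 0 * (b⁻¹).1 0 1 = -(b.1 0 1 * (b⁻¹).1 1 1) := eq_neg_of_add_eq_zero_left e
    have e3 := congrArg D.d e2
    rw [D.mul, h3, zero_add, D.neg, D.mul, h6, add_zero] at e3
    rw [e3]; exact h
  refine ⟨?_, ?_⟩
  · intro i j
    fin_cases i <;> fin_cases j
    · exact h3.le
    · exact h
    · show D.d (b.1 1 0) ≤ 0
      rw [h1, D.zero]; exact bot_le
    · exact h4.le
  · intro i j
    fin_cases i <;> fin_cases j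
    · exact h5.le
    · exact hi
    · show D.d ((b⁻¹).1 1 0) ≤ 0
      rw [h2, D.zero]; exact bot_le
    · exact h6.le

/-- an element of `E0` which is triangular is in `Bm` -/
theorem E0_Bm {a : G2 A} (m : ℕ) (ha : a ∈ D.E0) (h : a.1 1 0 = 0) : a ∈ D.Bm m := by
  obtain ⟨n, hn⟩ := D.tri_mem a h
  obtain ⟨h1, h3, h7, h8⟩ := hn
  have h0 : (0 : WithBot ℕ) ≤ m := by exact_mod_cast Nat.zero_le m
  exact ⟨h1, h3, (ha.1 0 1).trans h0, (ha.2 0 1).trans h0⟩

/-- the invariant of alternating products -/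
def Inv (g : Matrix (Fin 2) (Fin 2) A) : Prop :=
  ∃ n : ℕ, 1 ≤ n ∧ (∃ j, D.d (g 0 j) = n) ∧ (∀ j, D.d (g 0 j) ≤ n) ∧ ∀ j, D.d (g 1 j) < n

theorem alt_inv (m : ℕ) (h : G2 A) (hh : Alt D.E0 (D.Bm m) (D.E0 ⊓ D.Bm m) h) : D.Inv h.1 := by
  have hdeg : ∀ b ∈ D.Bm m, b ∉ D.E0 ⊓ D.Bm m → ∃ n : ℕ, 1 ≤ n ∧ D.d (b.1 0 1) = n := by
    intro b hb hbK
    have h1 : ¬ D.d (b.1 0 1) ≤ 0 := fun h => hbK ⟨D.Bm_E0 hb h, hb⟩
    rcases wb (D.d (b.1 0 1)) with hd | ⟨n, hd⟩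
    · rw [hd] at h1; exact absurd bot_le h1
    · refine ⟨n, ?_, hd⟩
      rw [hd] at h1
      push Not at h1
      have : 0 < n := by exact_mod_cast h1
      omega
  induction hh with
  | base b a hb hbK ha =>
    obtain ⟨n, hn1, hn⟩ := hdeg b hb hbK
    obtain ⟨⟨h1, h2⟩, ⟨h3, h4, h5, h6⟩, h7, h8⟩ := hb
    have hn0 : (0 : WithBot ℕ) < n := by exact_mod_cast hn1
    have hx : ∃ j, a.1 1 j ≠ 0 := by
      by_contra hall
      push Not at hall
      have e := mulinv a 1 1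
      rw [hall 0, hall 1, zero_mul, zero_mul, add_zero, Matrix.one_apply_eq] at e
      have h4 := D.one
      rw [← e, D.zero] at h4
      exact absurd h4 (by simp)
    obtain ⟨j0, hj0⟩ := hx
    have hd0 : D.d (a.1 1 j0) = 0 := le_antisymm (ha.1 1 j0) (D.nonneg hj0)
    have e0 : ∀ j, (b * a).1 0 j = b.1 0 0 * a.1 0 j + b.1 0 1 * a.1 1 j := by
      intro j
      show (b.1 * a.1) 0 j = _
      rw [Matrix.mul_apply, Fin.sum_univ_two]
    have e1 : ∀ j, (b * a).1 1 j = b.1 1 1 * a.1 1 j := by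
      intro j
      show (b.1 * a.1) 1 j = _
      rw [Matrix.mul_apply, Fin.sum_univ_two, h1, zero_mul, zero_add]
    have f0 : ∀ j, D.d (b.1 0 0 * a.1 0 j) ≤ 0 := by
      intro j
      rw [D.mul, h3, zero_add]; exact ha.1 0 j
    have f1 : ∀ j, D.d (b.1 0 1 * a.1 1 j) ≤ n := by
      intro j
      have := D.mul_le hn.le (ha.1 1 j)
      rwa [add_zero] at this
    refine ⟨n, hn1, ⟨j0, ?_⟩, ?_, ?_⟩
    · rw [e0]
      have : D.d (b.1 0 1 * a.1 1 j0) = n := by rw [D.mul, hn, hd0, add_zero]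
      rw [D.add_eq, this]
      rw [this]
      exact (f0 j0).trans_lt hn0
    · intro j
      rw [e0]
      exact D.add_le ((f0 j).trans hn0.le) (f1 j)
    · intro j
      rw [e1, D.mul, h4, zero_add]
      exact (ha.1 1 j).trans_lt hn0
  | step b a g hb hbK ha haK hg ih =>
    obtain ⟨n, hn1, hn⟩ := hdeg b hb hbK
    have ha10 : a.1 1 0 ≠ 0 := fun h => haK ⟨ha, D.E0_Bm m ha h⟩
    have hda : D.d (a.1 1 0) = 0 := le_antisymm (ha.1 1 0) (D.nonneg ha10)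
    obtain ⟨⟨h1, h2⟩, ⟨h3, h4, h5, h6⟩, h7, h8⟩ := hb
    obtain ⟨k, hk1, ⟨j0, hj0⟩, hk, hk'⟩ := ih
    have hn0 : (0 : WithBot ℕ) < n := by exact_mod_cast hn1
    have hknk : (k : WithBot ℕ) < ((n + k : ℕ) : WithBot ℕ) := by
      exact_mod_cast (by omega : k < n + k)
    have hcast : ((n + k : ℕ) : WithBot ℕ) = (n : WithBot ℕ) + k := by push_cast; rfl
    have e0 : ∀ j, (b * a * g).1 0 j = (b.1 0 0 * a.1 0 0 + b.1 0 1 * a.1 1 0) * g.1 0 j +
        (b.1 0 0 * a.1 0 1 + b.1 0 1 * a.1 1 1) * g.1 1 j := by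
      intro j
      show (b.1 * a.1 * g.1) 0 j = _
      rw [Matrix.mul_apply, Fin.sum_univ_two, Matrix.mul_apply, Fin.sum_univ_two, Matrix.mul_apply,
        Fin.sum_univ_two]
    have e1 : ∀ j, (b * a * g).1 1 j = b.1 1 1 * (a.1 1 0 * g.1 0 j + a.1 1 1 * g.1 1 j) := by
      intro j
      show (b.1 * a.1 * g.1) 1 j = _
      rw [Matrix.mul_apply, Fin.sum_univ_two, Matrix.mul_apply, Fin.sum_univ_two, Matrix.mul_apply,
        Fin.sum_univ_two, h1, zero_mul, zero_mul, zero_add, zero_add]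
      simp only [mul_add, mul_assoc]
    have c1 : D.d (b.1 0 0 * a.1 0 0 + b.1 0 1 * a.1 1 0) = n := by
      have : D.d (b.1 0 1 * a.1 1 0) = n := by rw [D.mul, hn, hda, add_zero]
      rw [D.add_eq, this]
      rw [this, D.mul, h3, zero_add]
      exact (ha.1 0 0).trans_lt hn0
    have c2 : D.d (b.1 0 0 * a.1 0 1 + b.1 0 1 * a.1 1 1) ≤ n := by
      refine D.add_le ?_ ?_
      · rw [D.mul, h3, zero_add]
        exact (ha.1 0 1).trans hn0.le
      · have := D.mul_le hn.le (ha.1 1 1)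
        rwa [add_zero] at this
    have c3 : ∀ j, D.d ((b.1 0 0 * a.1 0 1 + b.1 0 1 * a.1 1 1) * g.1 1 j) <
        ((n + k : ℕ) : WithBot ℕ) := by
      intro j
      rw [D.mul, hcast]
      rcases wb (D.d (g.1 1 j)) with hx | ⟨l, hx⟩
      · rw [hx, WithBot.add_bot, ← hcast]; exact WithBot.bot_lt_coe _
      · have h9 := hk' j
        rw [hx] at h9
        have h10 : l < k := by exact_mod_cast h9
        rcases wb (D.d (b.1 0 0 * a.1 0 1 + b.1 0 1 * a.1 1 1)) with hy | ⟨l', hy⟩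
        · rw [hy, WithBot.bot_add, ← hcast]; exact WithBot.bot_lt_coe _
        · rw [hy] at c2
          have h11 : l' ≤ n := by exact_mod_cast c2
          rw [hx, hy]
          exact_mod_cast (by omega : l' + l < n + k)
    refine ⟨n + k, by omega, ⟨j0, ?_⟩, ?_, ?_⟩
    · rw [e0]
      have : D.d ((b.1 0 0 * a.1 0 0 + b.1 0 1 * a.1 1 0) * g.1 0 j0) = ((n + k : ℕ) : WithBot ℕ) := by
        rw [D.mul, c1, hj0, hcast]
      rw [D.add_eq', this]
      rw [this]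
      exact c3 j0
    · intro j
      rw [e0]
      refine D.add_le ?_ (c3 j).le
      rw [hcast]
      exact D.mul_le c1.le (hk j)
    · intro j
      rw [e1, D.mul, h4, zero_add]
      refine lt_of_le_of_lt ?_ hknk
      refine D.add_le ?_ ?_
      · have := D.mul_le hda.le (hk j)
        rwa [zero_add] at this
      · have := D.mul_le (ha.1 1 1) (hk' j).le
        rwa [zero_add] at this

theorem alt_not (m : ℕ) (h : G2 A) (hh : Alt D.E0 (D.Bm m) (D.E0 ⊓ D.Bm m) h) : h ∉ D.E0 := by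
  intro h0
  obtain ⟨n, hn, ⟨j, hj⟩, _⟩ := D.alt_inv m h hh
  have h1 := h0.1 0 j
  rw [hj] at h1
  have : n ≤ 0 := by exact_mod_cast h1
  omega

end Deg

end Pool.Agent.N77.GL
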